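import Pool.Agent.H82.ER.Main

set_option autoImplicit false

/-!
# The billiard flow in every irrational polygon is ergodic

Problem MP_d5e7a1_an asks (Q1) whether for every irrational polygon `P` the billiard flow on
`P × S¹` is ergodic.  We prove that it is.

Idea of the proof.  Let `f` be a bounded first integral, `F = F_ε` its averages over distances of
order `ε` in the direction perpendicular to the flow (again a first integral away from the vertices),
and `r(a) = inf (t / Λ + dist (position of a at time ± t, vertices))`.  The
function `r` is 1-Lipschitz for parallel displacements in the table (folding is 1-Lipschitz up to the
first death in a parallel beam, and then the position is close to a vertex), `1 / Λ`-Lipschitz along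
the flow, and `r < R` only on a set of measure `C Λ R²`.  The function
`G = (logarithmic cut-off)(r) F` is Lipschitz in the position and vanishes near the vertices.  Its
angular Fourier modes `u_m` take values in a line through `0` on every side, so the integral of the
Jacobian of `u_m` is `0` and `∂ u_m` and `∂bar u_m` have the same norm; the transport equation
compares the norms for `m - 1` and `m + 1`, and by summation over `m` we get
`‖∇ u_m‖² ≤ C ‖G derived along the flow‖ ‖∇ G‖`.  The right-hand side tends to `0` if first `ε → 0`
and then the number of scales of the cut-off tends to infinity, so all angular Fourier modes of `f`
do not depend on the position.  Hence `f` depends only on the direction, and it is invariant under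
the reflections of the directions in the sides, which generate an irrational rotation.
-/

namespace Pool.Agent.Results.MP_d5e7a1_an.Ergodic

open H82.Bil H59.ER MeasureTheory Set

/-- The billiard flow is ergodic in every polygonal table with two sides whose angle is not a
rational multiple of `π`, in particular in every irrational polygon.

First part: let `T` be such a table with interior `U`, and let `A` be a Lebesgue measurable (null
measurable) set of states which is invariant under the billiard flow in the sense that for every
time `t > 0`, for almost every state `p` in `U × S¹`, every state `q` which is reached from `p` in the
time `t` freely or with one reflection lies in `A` if and only if `p` does.  Then `A` has measure `0`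
or full measure in `U × S¹`.

Second part (Q1 of the problem): for every irrational polygon, with its normalised Lebesgue measure
`μ` on `P × S¹`, every such set has `μ A = 0` or `μ A = 1`. -/
theorem result :
    (∀ (T : Table) (i j : T.ι),
      Irrational ((Complex.arg (T.d i) - Complex.arg (T.d j)) / Real.pi) →
      ∀ A : Set (ℂ × Dir), NullMeasurableSet A (volume.restrict (T.U ×ˢ (univ : Set Dir))) →
      AeInvariant T A →
      volume (A ∩ T.U ×ˢ (univ : Set Dir)) = 0 ∨ volume (T.U ×ˢ (univ : Set Dir) \ A) = 0) ∧
    (∀ Q : Polygon, Q.IsIrrational →
      ∀ A : Set (ℂ × Dir), NullMeasurableSet A Q.liouville → AeInvariant Q.table A →
      Q.liouville A = 0 ∨ Q.liouville A = 1) :=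
  ⟨H82.ER.tablesErgodic, fun Q hQ A hA hinv => Q.ergodic H82.ER.tablesErgodic hQ A hA hinv⟩

end Pool.Agent.Results.MP_d5e7a1_an.Ergodic
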