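import Pool.Agent.H9.WM.Main

set_option autoImplicit false

/-!
# Polygonal billiard flows have no eigenvalues except `0`

Problem MP_d5e7a1_an asks whether the billiard flow in every irrational polygon is ergodic.  This
file proves the next property in the ergodic hierarchy, in every polygon: the flow has no measurable
eigenfunction with a nonzero eigenvalue.  (For an ergodic flow this is weak mixing.)

Idea of the proof.  Let `f` be a bounded eigenfunction, `f q = exp (i ω t) f p`.  As in the proof of
ergodicity one approximates `f` by functions `G + i H` which are Lipschitz in the position and vanish
near the vertices, such that the defect of the eigenvalue equation, times the size of the gradient,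
is small.  The angular Fourier modes of `G` and `H` take values in a line through `0` on every side,
so the integral of their Jacobians is `0`: `∂` and `∂bar` of each mode have the same norm.  Hence the
energies `E m` of the modes satisfy, up to the defect,
`E (m - 1) + 2 E m + E (m + 1) = 4 ω² A m` with the masses `A m` of the modes, and
`E (m - 1) - 2 E m + E (m + 1) ≥ 0`.  The masses are summable, so the energies are a nonnegative,
even, convex sequence which tends to `0`, hence all of them are `0`, and all masses `A m` are `0`.
-/

namespace Pool.Agent.Results.MP_d5e7a1_an.WeakMixing

open H82.Bil H59.ER H9.WM MeasureTheory Set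

/-- Let `ω ≠ 0`.  In every polygonal table, rational or not, and in every polygon, each Lebesgue
measurable function `f` on the phase space which satisfies, for every time `t > 0` and almost every
state `p`, the equation `f q = exp (i ω t) f p` for all states `q` which are reached from `p` in the
time `t` freely or with one reflection, is `0` almost everywhere. -/
theorem result (ω : ℝ) (hω : ω ≠ 0) :
    (∀ (T : Table) (f : ℂ × Dir → ℂ),
      AEMeasurable f (volume.restrict (T.U ×ˢ (univ : Set Dir))) → Eigenfunction T ω f →
      ∀ᵐ a ∂(volume.restrict (T.U ×ˢ (univ : Set Dir))), f a = 0) ∧
    (∀ (Q : Polygon) (f : ℂ × Dir → ℂ), AEMeasurable f Q.liouville → Eigenfunction Q.table ω f →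
      ∀ᵐ a ∂Q.liouville, f a = 0) :=
  ⟨fun T f hf h => tables T ω hω f hf h,
    fun Q f hf h => polygons Q ω hω f hf h⟩

end Pool.Agent.Results.MP_d5e7a1_an.WeakMixing
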